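import Mathlib

/-!
# MP_cd2ba9_co — complements of multicone graphs need not be determined by their spectrum

For every `w ≥ 4` the complement of the multicone graph `K_w ∇ 2 C_4`, that is, `w` isolated
vertices together with the complement of `2 C_4`, is cospectral with the graph
`K_{1,1,1,5} ∪ 2 K_2 ∪ (w - 4) K_1`, to which it is not isomorphic.  The common spectrum is
`5, 1, 1, -1, -1, -1, -1, -3, 0^w`.
-/

namespace Pool.Agent.Results.MP_cd2ba9_co.NotDS

open SimpleGraph Matrix Polynomial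

/-- The multicone graph `K_w ∇ m C_n` (join of the complete graph on `w` vertices and of `m`
disjoint copies of the cycle with `n` vertices). -/
def multicone (w m n : ℕ) : SimpleGraph (Fin w ⊕ (Fin m × Fin n)) where
  Adj x y := match x, y with
    | Sum.inl a, Sum.inl b => a ≠ b
    | Sum.inl _, Sum.inr _ => True
    | Sum.inr _, Sum.inl _ => True
    | Sum.inr p, Sum.inr q => p.1 = q.1 ∧ (cycleGraph n).Adj p.2 q.2
  symm := ⟨by
    rintro (a | p) (b | q) h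
    · exact Ne.symm h
    · trivial
    · trivial
    · exact ⟨h.1.symm, h.2.symm⟩⟩
  loopless := ⟨by
    rintro (a | p) h
    · exact h rfl
    · exact (cycleGraph n).loopless.irrefl _ h.2⟩

open Classical in
/-- The adjacency spectrum: the multiset of the eigenvalues of the adjacency matrix. -/
noncomputable def adjSpectrum {V : Type*} [Fintype V] (G : SimpleGraph V) : Multiset ℝ :=
  (G.adjMatrix ℝ).charpoly.roots

/-- `G` is determined by its adjacency spectrum. -/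
def IsDS {V : Type*} [Fintype V] (G : SimpleGraph V) : Prop :=
  ∀ (U : Type) [Fintype U] (H : SimpleGraph U), adjSpectrum H = adjSpectrum G →
    Nonempty (H ≃g G)

/-- Adjacency in the complement of `2 C_4`. -/
def adj8 (x y : Fin 2 × Fin 4) : Prop := x ≠ y ∧ ¬ (x.1 = y.1 ∧ (cycleGraph 4).Adj x.2 y.2)

instance : DecidableRel adj8 := fun x y => by unfold adj8; infer_instance

/-- Adjacency in `K_{1,1,1,5} ∪ 2 K_2`: the vertices `0, ..., 7` carry `K_{1,1,1,5}`, and there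
are the edges `{8, 9}` and `{10, 11}`. -/
def adj12 (a b : Fin 12) : Prop :=
  (a ≠ b ∧ a < 8 ∧ b < 8 ∧ (a < 3 ∨ b < 3)) ∨ (a = 8 ∧ b = 9) ∨ (a = 9 ∧ b = 8) ∨
    (a = 10 ∧ b = 11) ∨ (a = 11 ∧ b = 10)

instance : DecidableRel adj12 := fun x y => by unfold adj12; infer_instance

/-- The mate: `K_{1,1,1,5} ∪ 2 K_2` together with `r` isolated vertices. -/
def mate (r : ℕ) : SimpleGraph (Fin r ⊕ Fin 12) where
  Adj x y := match x, y with
    | Sum.inr p, Sum.inr q => adj12 p q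
    | _, _ => False
  symm := ⟨by
    rintro (a | p) (b | q) h
    · exact h
    · exact h
    · exact h
    · revert p q; show ∀ p q, adj12 p q → adj12 q p; decide⟩
  loopless := ⟨by
    rintro (a | p) h
    · exact h
    · revert p; show ∀ p, adj12 p p → False; decide⟩

/-- The complement of `2 C_4` with four isolated vertices in front. -/
def AG : Matrix (Fin 12) (Fin 12) ℤ := !![0, 0, 0, 0, 0, 0, 0, 0, 0, 0, 0, 0;
  0, 0, 0, 0, 0, 0, 0, 0, 0, 0, 0, 0;
  0, 0, 0, 0, 0, 0, 0, 0, 0, 0, 0, 0;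
  0, 0, 0, 0, 0, 0, 0, 0, 0, 0, 0, 0;
  0, 0, 0, 0, 0, 0, 1, 0, 1, 1, 1, 1;
  0, 0, 0, 0, 0, 0, 0, 1, 1, 1, 1, 1;
  0, 0, 0, 0, 1, 0, 0, 0, 1, 1, 1, 1;
  0, 0, 0, 0, 0, 1, 0, 0, 1, 1, 1, 1;
  0, 0, 0, 0, 1, 1, 1, 1, 0, 0, 1, 0;
  0, 0, 0, 0, 1, 1, 1, 1, 0, 0, 0, 1;
  0, 0, 0, 0, 1, 1, 1, 1, 1, 0, 0, 0;
  0, 0, 0, 0, 1, 1, 1, 1, 0, 1, 0, 0]

/-- The adjacency matrix of `K_{1,1,1,5} ∪ 2 K_2`. -/
def AH : Matrix (Fin 12) (Fin 12) ℤ := Matrix.of fun a b => if adj12 a b then 1 else 0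

/-- The intertwining matrix. -/
def P : Matrix (Fin 12) (Fin 12) ℤ := !![0, 0, 0, 0, 5, 3, 1, 3, 2, 2, 2, 2;
  0, 0, 0, 0, 1, 5, 5, 1, 2, 2, 2, 2;
  0, 0, 0, 0, 3, 1, 3, 5, 2, 2, 2, 2;
  4, 0, 0, 0, 1, 1, 1, 1, 2, 2, 2, 2;
  -4, 4, 0, 0, 1, 1, 1, 1, 2, 2, 2, 2;
  0, -4, 4, 0, 1, 1, 1, 1, 2, 2, 2, 2;
  0, 0, -4, 4, 1, 1, 1, 1, 2, 2, 2, 2;
  0, 0, 0, -4, 1, 1, 1, 1, 2, 2, 2, 2;
  0, 0, 0, 0, 1, -1, 1, -1, 2, 0, -2, 0;
  0, 0, 0, 0, 1, -1, 1, -1, -2, 0, 2, 0;
  0, 0, 0, 0, 0, 0, 0, 0, 1, 1, 1, -3;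
  0, 0, 0, 0, 0, 0, 0, 0, 1, -3, 1, 1]

/-- `240` times the inverse of `P`. -/
def Q : Matrix (Fin 12) (Fin 12) ℤ := !![0, 0, 0, 48, -12, -12, -12, -12, 0, 0, 0, 0;
  0, 0, 0, 36, 36, -24, -24, -24, 0, 0, 0, 0;
  0, 0, 0, 24, 24, 24, -36, -36, 0, 0, 0, 0;
  0, 0, 0, 12, 12, 12, 12, -48, 0, 0, 0, 0;
  50, -10, -10, -6, -6, -6, -6, -6, 30, 30, 0, 0;
  30, 30, -30, -6, -6, -6, -6, -6, -30, -30, 0, 0;
  -30, 30, 30, -6, -6, -6, -6, -6, 30, 30, 0, 0;
  -10, -10, 50, -6, -6, -6, -6, -6, -30, -30, 0, 0;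
  -5, -5, -5, 9, 9, 9, 9, 9, 30, -30, 30, 30;
  -5, -5, -5, 9, 9, 9, 9, 9, 0, 0, 0, -60;
  -5, -5, -5, 9, 9, 9, 9, 9, -30, 30, 30, 30;
  -5, -5, -5, 9, 9, 9, 9, 9, 0, 0, -60, 0]

set_option maxRecDepth 100000 in
lemma intertwine : P * AG = AH * P := by decide +kernel

set_option maxRecDepth 100000 in
lemma P_mul_Q : P * Q = (240 : ℤ) • (1 : Matrix (Fin 12) (Fin 12) ℤ) := by decide +kernel

lemma charpoly_AG : (AG.map (Int.cast : ℤ → ℝ)).charpoly = (AH.map (Int.cast : ℤ → ℝ)).charpoly := by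
  set f : ℤ →+* ℝ := Int.castRingHom ℝ with hf
  have hcast : ∀ M : Matrix (Fin 12) (Fin 12) ℤ, M.map (Int.cast : ℤ → ℝ) = f.mapMatrix M :=
    fun M => rfl
  have h1 : f.mapMatrix P * f.mapMatrix AG = f.mapMatrix AH * f.mapMatrix P := by
    rw [← map_mul, ← map_mul, intertwine]
  have h2 : f.mapMatrix P * f.mapMatrix Q = (240 : ℝ) • (1 : Matrix (Fin 12) (Fin 12) ℝ) := by
    rw [← map_mul, P_mul_Q, map_zsmul, map_one, ← Int.cast_smul_eq_zsmul ℝ]
    norm_num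
  have h3 : f.mapMatrix P * ((1 / 240 : ℝ) • f.mapMatrix Q) = 1 := by
    rw [Matrix.mul_smul, h2, smul_smul]; norm_num
  have h4 : ((1 / 240 : ℝ) • f.mapMatrix Q) * f.mapMatrix P = 1 := by
    exact mul_eq_one_comm.1 h3
  let u : (Matrix (Fin 12) (Fin 12) ℝ)ˣ := ⟨f.mapMatrix P, (1 / 240 : ℝ) • f.mapMatrix Q, h3, h4⟩
  have h5 : (u : Matrix (Fin 12) (Fin 12) ℝ) * f.mapMatrix AG * (↑u⁻¹ : Matrix _ _ ℝ)
      = f.mapMatrix AH := by
    show f.mapMatrix P * f.mapMatrix AG * ((1 / 240 : ℝ) • f.mapMatrix Q) = f.mapMatrix AH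
    rw [h1, Matrix.mul_assoc, h3, Matrix.mul_one]
  have h6 := Matrix.charpoly_units_conj u (f.mapMatrix AG)
  rw [← Matrix.coe_units_inv, h5] at h6
  rw [hcast, hcast, h6]

lemma charpoly_blocks {m : Type*} [Fintype m] [DecidableEq m] (k : ℕ) (M : Matrix m m ℝ) :
    (Matrix.fromBlocks (0 : Matrix (Fin k) (Fin k) ℝ) 0 0 M).charpoly = X ^ k * M.charpoly := by
  have h := Matrix.charpoly_fromBlocks_zero₁₂ (0 : Matrix (Fin k) (Fin k) ℝ) 0 M
  have h2 : (0 : Matrix (Fin k) (Fin k) ℝ).charpoly = X ^ k := by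
    have := Matrix.charpoly_zero (R := ℝ) (n := Fin k)
    rwa [Fintype.card_fin] at this
  rw [h2] at h
  exact h

/-- The adjacency matrix of the complement of `2 C_4`. -/
noncomputable def A8 : Matrix (Fin 2 × Fin 4) (Fin 2 × Fin 4) ℝ :=
  Matrix.of fun x y => if adj8 x y then 1 else 0

/-- The numbering of the vertices. -/
def enum : Fin 4 ⊕ (Fin 2 × Fin 4) ≃ Fin 12 :=
  (Equiv.sumCongr (Equiv.refl (Fin 4)) finProdFinEquiv).trans finSumFinEquiv

lemma AG_inr : ∀ x y : Fin 2 × Fin 4,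
    AG (enum (Sum.inr x)) (enum (Sum.inr y)) = if adj8 x y then 1 else 0 := by decide

lemma AG_inl_inl : ∀ x y : Fin 4, AG (enum (Sum.inl x)) (enum (Sum.inl y)) = 0 := by decide

lemma AG_inl_inr : ∀ (x : Fin 4) (y : Fin 2 × Fin 4),
    AG (enum (Sum.inl x)) (enum (Sum.inr y)) = 0 := by decide

lemma AG_inr_inl : ∀ (x : Fin 2 × Fin 4) (y : Fin 4),
    AG (enum (Sum.inr x)) (enum (Sum.inl y)) = 0 := by decide

lemma AG_blocks : AG.map (Int.cast : ℤ → ℝ) =
    Matrix.reindex enum enum (Matrix.fromBlocks (0 : Matrix (Fin 4) (Fin 4) ℝ) 0 0 A8) := by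
  have key : ∀ a b : Fin 4 ⊕ (Fin 2 × Fin 4), ((AG (enum a) (enum b) : ℤ) : ℝ) =
      Matrix.fromBlocks (0 : Matrix (Fin 4) (Fin 4) ℝ) 0 0 A8 a b := by
    rintro (a | a) (b | b)
    · simp [AG_inl_inl]
    · simp [AG_inl_inr]
    · simp [AG_inr_inl]
    · rw [AG_inr]; simp [A8]
  ext i j
  rw [Matrix.reindex_apply, Matrix.submatrix_apply, ← key, Equiv.apply_symm_apply,
    Equiv.apply_symm_apply]
  rfl

lemma charpoly_AH : (AH.map (Int.cast : ℤ → ℝ)).charpoly = X ^ 4 * A8.charpoly := by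
  have h1 := charpoly_AG
  have h2 := congrArg Matrix.charpoly AG_blocks
  have h3 := Matrix.charpoly_reindex enum
    (Matrix.fromBlocks (0 : Matrix (Fin 4) (Fin 4) ℝ) 0 0 A8)
  have h4 := charpoly_blocks 4 A8
  exact h1.symm.trans (h2.trans (h3.trans h4))

/-- The adjacency matrix of `K_{1,1,1,5} ∪ 2 K_2`, over the reals. -/
noncomputable def A12 : Matrix (Fin 12) (Fin 12) ℝ :=
  Matrix.of fun x y => if adj12 x y then 1 else 0

lemma A12_eq : A12 = AH.map (Int.cast : ℤ → ℝ) := by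
  ext i j
  rw [Matrix.map_apply, A12, AH, Matrix.of_apply, Matrix.of_apply]
  split_ifs <;> simp

lemma charpoly_A12 : A12.charpoly = X ^ 4 * A8.charpoly := by
  rw [A12_eq]; exact charpoly_AH

lemma adjSpectrum_eq {V : Type*} [Fintype V] [i1 : DecidableEq V] (G : SimpleGraph V)
    [i2 : DecidableRel G.Adj] : adjSpectrum G = (G.adjMatrix ℝ).charpoly.roots := by
  have e1 : i1 = fun a b => Classical.propDecidable (a = b) := Subsingleton.elim _ _
  have e2 : i2 = fun a b => Classical.propDecidable (G.Adj a b) := Subsingleton.elim _ _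
  subst e1 e2
  rfl

lemma spectrum_cone (w : ℕ) :
    adjSpectrum ((multicone w 2 4)ᶜ) = (X ^ w * A8.charpoly).roots := by
  classical
  rw [adjSpectrum_eq]
  have h : ((multicone w 2 4)ᶜ).adjMatrix ℝ =
      Matrix.fromBlocks (0 : Matrix (Fin w) (Fin w) ℝ) 0 0 A8 := by
    ext (a | a) (b | b)
    · rw [SimpleGraph.adjMatrix_apply, Matrix.fromBlocks_apply₁₁, if_neg]
      · rfl
      · rintro ⟨h1, h2⟩
        exact h2 (fun h => h1 (congrArg _ h))
    · rw [SimpleGraph.adjMatrix_apply, Matrix.fromBlocks_apply₁₂, if_neg]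
      · rfl
      · rintro ⟨-, h2⟩
        exact h2 trivial
    · rw [SimpleGraph.adjMatrix_apply, Matrix.fromBlocks_apply₂₁, if_neg]
      · rfl
      · rintro ⟨-, h2⟩
        exact h2 trivial
    · rw [SimpleGraph.adjMatrix_apply, Matrix.fromBlocks_apply₂₂, A8, Matrix.of_apply]
      have : ((multicone w 2 4)ᶜ).Adj (Sum.inr a) (Sum.inr b) ↔ adj8 a b := by
        rw [SimpleGraph.compl_adj, adj8]
        refine and_congr ?_ Iff.rfl
        simp
      by_cases hab : adj8 a b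
      · rw [if_pos (this.2 hab), if_pos hab]
      · rw [if_neg (fun h => hab (this.1 h)), if_neg hab]
  have h2 := congrArg Matrix.charpoly h
  exact congrArg Polynomial.roots (h2.trans (charpoly_blocks w A8))

lemma mate_adjMatrix (r : ℕ) [DecidableRel (mate r).Adj] : (mate r).adjMatrix ℝ =
    Matrix.fromBlocks (0 : Matrix (Fin r) (Fin r) ℝ) 0 0 A12 := by
  ext (a | a) (b | b)
  · have hn : ¬ (mate r).Adj (Sum.inl a) (Sum.inl b) := fun h => h
    rw [SimpleGraph.adjMatrix_apply, Matrix.fromBlocks_apply₁₁, if_neg hn, Matrix.zero_apply]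
  · have hn : ¬ (mate r).Adj (Sum.inl a) (Sum.inr b) := fun h => h
    rw [SimpleGraph.adjMatrix_apply, Matrix.fromBlocks_apply₁₂, if_neg hn, Matrix.zero_apply]
  · have hn : ¬ (mate r).Adj (Sum.inr a) (Sum.inl b) := fun h => h
    rw [SimpleGraph.adjMatrix_apply, Matrix.fromBlocks_apply₂₁, if_neg hn, Matrix.zero_apply]
  · rw [SimpleGraph.adjMatrix_apply, Matrix.fromBlocks_apply₂₂, A12, Matrix.of_apply]
    have : (mate r).Adj (Sum.inr a) (Sum.inr b) ↔ adj12 a b := Iff.rfl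
    by_cases hab : adj12 a b
    · rw [if_pos (this.2 hab), if_pos hab]
    · rw [if_neg (fun h => hab (this.1 h)), if_neg hab]

lemma pow_aux {R : Type*} [CommRing R] (p : R[X]) (r k : ℕ) :
    X ^ r * (X ^ k * p) = X ^ (r + k) * p := by
  rw [pow_add, mul_assoc]

lemma mate_charpoly (r : ℕ) :
    (Matrix.fromBlocks (0 : Matrix (Fin r) (Fin r) ℝ) 0 0 A12).charpoly =
      X ^ (r + 4) * A8.charpoly := by
  rw [charpoly_blocks, charpoly_A12]
  exact pow_aux _ r 4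

lemma spectrum_mate (r : ℕ) :
    adjSpectrum (mate r) = (X ^ (r + 4) * A8.charpoly).roots := by
  classical
  rw [adjSpectrum_eq, mate_adjMatrix, mate_charpoly]

lemma cospectral (r : ℕ) : adjSpectrum (mate r) = adjSpectrum ((multicone (r + 4) 2 4)ᶜ) := by
  rw [spectrum_mate, spectrum_cone]

/-- In the complement of `2 C_4` no vertex has six neighbours. -/
lemma card_adj8 : ∀ x : Fin 2 × Fin 4, (Finset.univ.filter (fun y => adj8 x y)).card = 5 := by
  decide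

lemma not_iso (r : ℕ) : IsEmpty (mate r ≃g (multicone (r + 4) 2 4)ᶜ) := by
  classical
  refine ⟨fun e => ?_⟩
  -- the vertex `0` of `K_{1,1,1,5}` is adjacent to the seven vertices `1, ..., 7`
  have hinj : Function.Injective (fun i : Fin 7 => e (Sum.inr (⟨i.val + 1, by omega⟩ : Fin 12))) := by
    intro i j hij
    have := e.injective hij
    simpa [Fin.ext_iff] using this
  have hadj : ∀ i : Fin 7, ((multicone (r + 4) 2 4)ᶜ).Adj (e (Sum.inr (0 : Fin 12)))
      (e (Sum.inr (⟨i.val + 1, by omega⟩ : Fin 12))) := by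
    intro i
    rw [e.map_adj_iff]
    show adj12 0 ⟨i.val + 1, by omega⟩
    revert i; decide
  -- all neighbours are in the complement of `2 C_4`
  have hno : ∀ (a : Fin (r + 4)) y, ¬ ((multicone (r + 4) 2 4)ᶜ).Adj (Sum.inl a) y := by
    rintro a (b | b) ⟨h1, h2⟩
    · exact h2 (fun h => h1 (congrArg _ h))
    · exact h2 trivial
  have hno' : ∀ (a : Fin (r + 4)) y, ¬ ((multicone (r + 4) 2 4)ᶜ).Adj y (Sum.inl a) :=
    fun a y h => hno a y h.symm
  obtain ⟨x, hx⟩ : ∃ x, e (Sum.inr (0 : Fin 12)) = Sum.inr x := by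
    cases h : e (Sum.inr (0 : Fin 12)) with
    | inl a => exact absurd (h ▸ hadj 0) (hno a _)
    | inr x => exact ⟨x, rfl⟩
  have hy : ∀ i : Fin 7, ∃ y, e (Sum.inr (⟨i.val + 1, by omega⟩ : Fin 12)) = Sum.inr y := by
    intro i
    cases h : e (Sum.inr (⟨i.val + 1, by omega⟩ : Fin 12)) with
    | inl a => exact absurd (h ▸ hadj i) (hno' a _)
    | inr x => exact ⟨x, rfl⟩
  choose g hg using hy
  have hginj : Function.Injective g := by
    intro i j hij
    apply hinj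
    show e _ = e _
    rw [hg i, hg j, hij]
  have hmem : ∀ i, g i ∈ Finset.univ.filter (fun y => adj8 x y) := by
    intro i
    have h1 := hadj i
    rw [hx, hg i, SimpleGraph.compl_adj] at h1
    rw [Finset.mem_filter]
    refine ⟨Finset.mem_univ _, ?_, h1.2⟩
    intro h
    exact h1.1 (congrArg _ h)
  have hcard : (Finset.univ.image g).card ≤ (Finset.univ.filter (fun y => adj8 x y)).card := by
    apply Finset.card_le_card
    intro y hy
    obtain ⟨i, -, rfl⟩ := Finset.mem_image.1 hy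
    exact hmem i
  rw [Finset.card_image_of_injective _ hginj, card_adj8] at hcard
  simp at hcard

lemma not_isDS (r : ℕ) : ¬ IsDS ((multicone (r + 4) 2 4)ᶜ) := by
  intro h
  obtain ⟨e⟩ := h (Fin r ⊕ Fin 12) (mate r) (cospectral r)
  exact (not_iso r).false e

/-- **MP_cd2ba9_co, Q1 (disproved).**  For every `w ≥ 4` the complement of the multicone graph
`K_w ∇ 2 C_4` is not determined by its adjacency spectrum: it is cospectral with, but not
isomorphic to, the disjoint union of `K_{1,1,1,5}`, two edges and `w - 4` isolated vertices.  In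
particular the statement of Q1 is false. -/
theorem result :
    (∀ r : ℕ, adjSpectrum (mate r) = adjSpectrum ((multicone (r + 4) 2 4)ᶜ) ∧
      IsEmpty (mate r ≃g (multicone (r + 4) 2 4)ᶜ)) ∧
    (∀ w : ℕ, 4 ≤ w → ¬ IsDS ((multicone w 2 4)ᶜ)) ∧
    ¬ (∀ w m n : ℕ, 1 ≤ w → 1 ≤ m → 3 ≤ n → IsDS ((multicone w m n)ᶜ)) := by
  refine ⟨fun r => ⟨cospectral r, not_iso r⟩, ?_, ?_⟩
  · intro w hw
    obtain ⟨r, rfl⟩ := Nat.exists_eq_add_of_le' hw
    exact not_isDS r
  · intro h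
    exact not_isDS 0 (h 4 2 4 (by norm_num) (by norm_num) (by norm_num))

end Pool.Agent.Results.MP_cd2ba9_co.NotDS
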